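import Pool.Agent.H91.Sym.A1
import Pool.Agent.H91.Sym.A2

/-!
# Project SYM, module G1: the Poincare inequality on the fibres
-/

set_option autoImplicit false
set_option linter.unusedSectionVars false
set_option linter.unusedVariables false

open MeasureTheory Set Filter Topology
open scoped ContDiff

namespace Pool.Agent.H84.Sym

variable {E : Type*} [NormedAddCommGroup E] [InnerProductSpace ℝ E]

namespace G1

/-- the function `φ` -/
noncomputable def phi (R : ℝ) (x : E) : ℝ := Real.sqrt (R ^ 2 + ‖x‖ ^ 2)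

theorem rad_pos {R : ℝ} (hR : 0 < R) (x : E) : 0 < R ^ 2 + ‖x‖ ^ 2 := by positivity

theorem phi_pos {R : ℝ} (hR : 0 < R) (x : E) : 0 < phi R x := Real.sqrt_pos.2 (rad_pos hR x)

theorem phi_sq {R : ℝ} (hR : 0 < R) (x : E) : phi R x ^ 2 = R ^ 2 + ‖x‖ ^ 2 :=
  Real.sq_sqrt (rad_pos hR x).le

theorem R_le_phi {R : ℝ} (hR : 0 < R) (x : E) : R ≤ phi R x := by
  apply Real.le_sqrt_of_sq_le
  nlinarith [sq_nonneg ‖x‖]

theorem norm_le_phi {R : ℝ} (hR : 0 < R) (x : E) : ‖x‖ ≤ phi R x := by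
  apply Real.le_sqrt_of_sq_le
  nlinarith [sq_nonneg R]

theorem phi_smooth {R : ℝ} (hR : 0 < R) {n : ℕ∞} : ContDiff ℝ n (phi R : E → ℝ) := by
  unfold phi
  apply ContDiff.sqrt
  · exact contDiff_const.add (contDiff_norm_sq ℝ)
  · intro x; exact (rad_pos hR x).ne'

theorem phi_hasFDerivAt {R : ℝ} (hR : 0 < R) (x : E) :
    HasFDerivAt (phi R : E → ℝ) ((phi R x)⁻¹ • innerSL ℝ x) x := by
  have h1 : HasFDerivAt (fun y : E => R ^ 2 + ‖y‖ ^ 2) (2 • innerSL ℝ x) x := by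
    have := (hasStrictFDerivAt_norm_sq (F := E) x).hasFDerivAt
    simpa using this.const_add (R ^ 2)
  have h2 := h1.sqrt (rad_pos hR x).ne'
  have h3 : (1 / (2 * √(R ^ 2 + ‖x‖ ^ 2))) • (2 • innerSL ℝ x : E →L[ℝ] ℝ)
      = (phi R x)⁻¹ • innerSL ℝ x := by
    have hp := phi_pos hR x
    unfold phi at *
    rw [← Nat.cast_smul_eq_nsmul ℝ, smul_smul]
    congr 1
    push_cast
    field_simp
  rw [h3] at h2
  exact h2

theorem fderiv_phi {R : ℝ} (hR : 0 < R) :
    fderiv ℝ (phi R : E → ℝ) = fun x => (phi R x)⁻¹ • innerSL ℝ x := by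
  funext x
  exact (phi_hasFDerivAt hR x).fderiv

theorem fderiv_phi_apply {R : ℝ} (hR : 0 < R) (x v : E) :
    fderiv ℝ (phi R : E → ℝ) x v = (phi R x)⁻¹ * inner ℝ x v := by
  rw [fderiv_phi hR]; simp

theorem fderiv2_phi {R : ℝ} (hR : 0 < R) (x v : E) :
    fderiv ℝ (fderiv ℝ (phi R : E → ℝ)) x v v
      = (phi R x)⁻¹ * ‖v‖ ^ 2 - (phi R x)⁻¹ ^ 3 * (inner ℝ x v) ^ 2 := by
  rw [fderiv_phi hR]
  have hp := phi_pos hR x
  have h1 := (hasDerivAt_inv hp.ne').comp_hasFDerivAt x (phi_hasFDerivAt hR x)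
  have h2 : HasFDerivAt (fun x : E => innerSL ℝ x) (innerSL ℝ : E →L[ℝ] (E →L[ℝ] ℝ)) x := by
    exact (innerSL ℝ : E →L[ℝ] (E →L[ℝ] ℝ)).hasFDerivAt
  have h3 := h1.smul h2
  have h4 := h3.fderiv
  have h5 : (fun x : E => (phi R x)⁻¹ • (innerSL ℝ : E →L[ℝ] (E →L[ℝ] ℝ)) x)
    = ((Inv.inv ∘ (phi R : E → ℝ)) • fun x : E => (innerSL ℝ : E →L[ℝ] (E →L[ℝ] ℝ)) x) := rfl
  rw [h5, h4]
  simp only [Function.comp_apply, ContinuousLinearMap.add_apply, ContinuousLinearMap.smul_apply,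
    ContinuousLinearMap.smulRight_apply, innerSL_apply_apply, smul_eq_mul]
  have h6 : ((innerSL ℝ : E →L[ℝ] (E →L[ℝ] ℝ)) v) v = ‖v‖ ^ 2 := real_inner_self_eq_norm_sq v
  erw [h6]
  field_simp
  ring

theorem fderiv2_phi_ge {R : ℝ} (hR : 0 < R) (x v : E) :
    R ^ 2 * (phi R x)⁻¹ ^ 3 * ‖v‖ ^ 2 ≤ fderiv ℝ (fderiv ℝ (phi R : E → ℝ)) x v v := by
  rw [fderiv2_phi hR]
  have hp := phi_pos hR x
  have h1 : (inner ℝ x v) ^ 2 ≤ ‖x‖ ^ 2 * ‖v‖ ^ 2 := by
    have := abs_real_inner_le_norm x v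
    rw [← mul_pow, ← sq_abs]
    exact pow_le_pow_left₀ (abs_nonneg _) this 2
  have h2 := phi_sq hR x
  have h3 : (phi R x)⁻¹ = (phi R x)⁻¹ ^ 3 * (R ^ 2 + ‖x‖ ^ 2) := by
    rw [← h2]; field_simp
  have h4 : (0:ℝ) ≤ (phi R x)⁻¹ ^ 3 := by positivity
  calc R ^ 2 * (phi R x)⁻¹ ^ 3 * ‖v‖ ^ 2
      = (phi R x)⁻¹ ^ 3 * (R ^ 2 + ‖x‖ ^ 2) * ‖v‖ ^ 2
        - (phi R x)⁻¹ ^ 3 * (‖x‖ ^ 2 * ‖v‖ ^ 2) := by ring
    _ = (phi R x)⁻¹ * ‖v‖ ^ 2 - (phi R x)⁻¹ ^ 3 * (‖x‖ ^ 2 * ‖v‖ ^ 2) := by rw [← h3]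
    _ ≤ _ := by
        have := mul_le_mul_of_nonneg_left h1 h4
        linarith

/-- The potential with the extra term. -/
noncomputable def psi (V : E → ℝ) (β R : ℝ) (x : E) : ℝ := V x + 2 * β * phi R x

theorem psi_smooth {V : E → ℝ} (hV : ContDiff ℝ 2 V) {R : ℝ} (hR : 0 < R) (β : ℝ) :
    ContDiff ℝ 2 (psi V β R) := by
  unfold psi
  exact hV.add (contDiff_const.mul (phi_smooth (n := 2) hR))

theorem fderiv_psi {V : E → ℝ} (hV : ContDiff ℝ 2 V) {R : ℝ} (hR : 0 < R) (β : ℝ) :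
    fderiv ℝ (psi V β R) = fun x => fderiv ℝ V x + (2 * β) • fderiv ℝ (phi R : E → ℝ) x := by
  funext x
  have h1 : HasFDerivAt V (fderiv ℝ V x) x := (hV.differentiable (by norm_num) x).hasFDerivAt
  have h2 : HasFDerivAt (phi R : E → ℝ) (fderiv ℝ (phi R : E → ℝ) x) x :=
    ((phi_smooth (n := 2) hR).differentiable (by norm_num) x).hasFDerivAt
  exact (h1.add (h2.const_mul (2 * β))).fderiv

theorem fderiv2_psi {V : E → ℝ} (hV : ContDiff ℝ 2 V) {R : ℝ} (hR : 0 < R) (β : ℝ) (x : E) :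
    fderiv ℝ (fderiv ℝ (psi V β R)) x
      = fderiv ℝ (fderiv ℝ V) x + (2 * β) • fderiv ℝ (fderiv ℝ (phi R : E → ℝ)) x := by
  rw [fderiv_psi hV hR]
  have h1 : HasFDerivAt (fderiv ℝ V) (fderiv ℝ (fderiv ℝ V) x) x :=
    (((hV.fderiv_right (m := 1) (by norm_num)).differentiable (by norm_num)) x).hasFDerivAt
  have h2 : HasFDerivAt (fderiv ℝ (phi R : E → ℝ)) (fderiv ℝ (fderiv ℝ (phi R : E → ℝ)) x) x :=
    ((((phi_smooth (n := 2) hR).fderiv_right (m := 1) (by norm_num)).differentiable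
      (by norm_num)) x).hasFDerivAt
  exact (h1.add (h2.const_smul (2 * β))).fderiv

theorem norm_fderiv_phi_le {R : ℝ} (hR : 0 < R) (x : E) : ‖fderiv ℝ (phi R : E → ℝ) x‖ ≤ 1 := by
  apply ContinuousLinearMap.opNorm_le_bound _ zero_le_one
  intro v
  rw [fderiv_phi_apply hR, Real.norm_eq_abs, abs_mul, abs_inv, abs_of_pos (phi_pos hR x)]
  have h1 := abs_real_inner_le_norm x v
  have h2 := norm_le_phi hR x
  have hp := phi_pos hR x
  rw [inv_mul_le_iff₀ hp]
  calc |inner ℝ x v| ≤ ‖x‖ * ‖v‖ := h1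
    _ ≤ phi R x * (1 * ‖v‖) := by rw [one_mul]; exact mul_le_mul_of_nonneg_right h2 (norm_nonneg _)

theorem psi_pot {V : E → ℝ} {t C : ℝ} (hV : Pot V t C) {R β : ℝ} (hR : 0 < R) (hβ : 0 < β) :
    Pot (psi V β R) t (C + 2 * β) where
  smooth := psi_smooth hV.smooth hR β
  pos := hV.pos
  hess := by
    intro x v
    rw [fderiv2_psi hV.smooth hR]
    have h1 := hV.hess x v
    have h2 := fderiv2_phi_ge hR x v
    have h3 : 0 ≤ R ^ 2 * (phi R x)⁻¹ ^ 3 * ‖v‖ ^ 2 := by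
      have := phi_pos hR x
      positivity
    simp only [ContinuousLinearMap.add_apply, ContinuousLinearMap.smul_apply, smul_eq_mul]
    nlinarith
  grad := by
    intro x
    rw [fderiv_psi hV.smooth hR]
    have h1 := hV.grad x
    have h2 := norm_fderiv_phi_le hR x
    have h3 : ‖(2 * β) • fderiv ℝ (phi R : E → ℝ) x‖ ≤ 2 * β := by
      rw [norm_smul, Real.norm_eq_abs, abs_of_pos (by positivity)]
      nlinarith
    have h4 := norm_add_le (fderiv ℝ V x) ((2 * β) • fderiv ℝ (phi R : E → ℝ) x)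
    have h5 := norm_nonneg x
    nlinarith

/-- the convexity function -/
noncomputable def qq (β R : ℝ) (x : E) : ℝ := 2 * β * (R ^ 2 * (phi R x)⁻¹ ^ 3)

theorem qq_cont {R : ℝ} (hR : 0 < R) (β : ℝ) : Continuous (qq β R : E → ℝ) := by
  unfold qq
  have h : Continuous (phi R : E → ℝ) := (phi_smooth (n := 0) hR).continuous
  exact continuous_const.mul (continuous_const.mul ((h.inv₀ fun x => (phi_pos hR x).ne').pow 3))

theorem qq_hess {V : E → ℝ} {t C : ℝ} (hV : Pot V t C) {R β : ℝ} (hR : 0 < R) (hβ : 0 < β)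
    (x v : E) : qq β R x * ‖v‖ ^ 2 ≤ fderiv ℝ (fderiv ℝ (psi V β R)) x v v := by
  rw [fderiv2_psi hV.smooth hR]
  have h1 := hV.hess x v
  have h2 := fderiv2_phi_ge hR x v
  have h3 : 0 ≤ t * ‖v‖ ^ 2 := by
    have := hV.pos
    positivity
  simp only [ContinuousLinearMap.add_apply, ContinuousLinearMap.smul_apply, smul_eq_mul]
  unfold qq
  nlinarith


theorem D_smooth {u : E → ℝ} (hu : ContDiff ℝ ∞ u) (e : E) {n : ℕ∞} : ContDiff ℝ n (D e u) := by
  have h1 : ContDiff ℝ n (fderiv ℝ u) := by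
    apply (hu.of_le (m := n + 1) ?_).fderiv_right le_rfl
    exact_mod_cast le_top
  exact h1.clm_apply contDiff_const

theorem D_supp {u : E → ℝ} (hc : HasCompactSupport u) (e : E) : HasCompactSupport (D e u) :=
  hc.fderiv_apply (𝕜 := ℝ) e

/-- the function under the Euler identity -/
noncomputable def gg (b : OrthonormalBasis (Fin (Module.finrank ℝ E)) ℝ E) (V : E → ℝ)
    (β R : ℝ) (u : E → ℝ) (x : E) : ℝ :=
  (∑ i, (D (b i) u x) ^ 2) * ((phi R x)⁻¹ * Real.exp (-psi V β R x))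

theorem gg_fderiv (b : OrthonormalBasis (Fin (Module.finrank ℝ E)) ℝ E) {V : E → ℝ} {t C : ℝ}
    (hV : Pot V t C) {β R : ℝ} (hR : 0 < R) {u : E → ℝ} (hu : Tst u) (x : E) :
    fderiv ℝ (gg b V β R u) x x =
      Real.exp (-psi V β R x) * ((∑ i, 2 * D (b i) u x * fderiv ℝ (D (b i) u) x x) * (phi R x)⁻¹
        - (∑ i, (D (b i) u x) ^ 2) * (phi R x)⁻¹ ^ 3 * ‖x‖ ^ 2
        - (∑ i, (D (b i) u x) ^ 2) * (phi R x)⁻¹ *
            (fderiv ℝ V x x + 2 * β * ((phi R x)⁻¹ * ‖x‖ ^ 2))) := by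
  have hp := phi_pos hR x
  have h1 : HasFDerivAt (fun y => ∑ i, (D (b i) u y) ^ 2)
      (∑ i, (2 * D (b i) u x) • fderiv ℝ (D (b i) u) x) x := by
    apply HasFDerivAt.fun_sum
    intro i _
    have h := ((D_smooth hu.1 (b i) (n := 1)).differentiable (by norm_num) x).hasFDerivAt.pow 2
    have e : (2 * D (b i) u x) • fderiv ℝ (D (b i) u) x
        = (2 • D (b i) u x ^ (2 - 1)) • fderiv ℝ (D (b i) u) x := by
      rw [nsmul_eq_mul]; norm_num
    rw [e]; exact h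
  have h2 := (hasDerivAt_inv hp.ne').comp_hasFDerivAt x (phi_hasFDerivAt hR x)
  have h3 : HasFDerivAt (fun y => Real.exp (-psi V β R y))
      (Real.exp (-psi V β R x) • -(fderiv ℝ (psi V β R) x)) x := by
    have h := ((psi_smooth hV.smooth hR β).differentiable (by norm_num) x).hasFDerivAt
    exact h.neg.exp
  have h4 := (h1.mul (h2.mul h3)).fderiv
  have h5 : gg b V β R u = ((fun y => ∑ i, (D (b i) u y) ^ 2) *
      (((fun y => y⁻¹) ∘ phi R) * fun y => Real.exp (-psi V β R y))) := rfl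
  rw [h5, h4, fderiv_psi hV.smooth hR]
  simp only [Function.comp_apply, ContinuousLinearMap.add_apply, ContinuousLinearMap.smul_apply,
    ContinuousLinearMap.neg_apply, smul_eq_mul, Pi.mul_apply, fderiv_phi_apply hR,
    ContinuousLinearMap.sum_apply, real_inner_self_eq_norm_sq]
  have h6 : ((innerSL ℝ : E →L[ℝ] (E →L[ℝ] ℝ)) x) x = ‖x‖ ^ 2 := real_inner_self_eq_norm_sq x
  erw [h6]
  field_simp
  ring

variable [FiniteDimensional ℝ E] [MeasurableSpace E] [BorelSpace E]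

/-- Euler's identity: integration by parts for `g(x) x`. -/
theorem euler_ibp {g : E → ℝ} (hg : ContDiff ℝ 1 g) (hc : HasCompactSupport g) :
    ∫ x : E, (fderiv ℝ g x x + (Module.finrank ℝ E : ℝ) * g x) = 0 := by
  classical
  set b := stdOrthonormalBasis ℝ E with hb
  have hgd : Differentiable ℝ g := hg.differentiable (by norm_num)
  have hin : ∀ i, ContDiff ℝ 1 (fun x : E => inner ℝ (b i) x) := fun i =>
    (contDiff_const).inner ℝ contDiff_id
  have hF : ∀ i, ContDiff ℝ 1 (fun x : E => g x * inner ℝ (b i) x) := fun i => hg.mul (hin i)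
  have hFc : ∀ i, HasCompactSupport (fun x : E => g x * inner ℝ (b i) x) := fun i =>
    hc.mul_right
  have hD : ∀ i x, D (b i) (fun x : E => g x * inner ℝ (b i) x) x
      = fderiv ℝ g x (b i) * inner ℝ (b i) x + g x := by
    intro i x
    unfold D
    have h1 : HasFDerivAt (fun x : E => inner ℝ (b i) x) (innerSL ℝ (b i)) x :=
      (innerSL ℝ (b i)).hasFDerivAt
    have h2 := ((hgd x).hasFDerivAt.mul h1).fderiv
    have h3 : (fun x : E => g x * inner ℝ (b i) x) = (g * fun x : E => inner ℝ (b i) x) := rfl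
    rw [h3, h2]
    simp [b.orthonormal.1 i]
    ring
  have hpt : ∀ x, fderiv ℝ g x x + (Module.finrank ℝ E : ℝ) * g x
      = ∑ i, D (b i) (fun x : E => g x * inner ℝ (b i) x) x := by
    intro x
    rw [Finset.sum_congr rfl (fun i _ => hD i x), Finset.sum_add_distrib]
    congr 1
    · have h1 : x = ∑ i, inner ℝ (b i) x • b i := (b.sum_repr' x).symm
      have h2 : fderiv ℝ g x x = fderiv ℝ g x (∑ i, inner ℝ (b i) x • b i) := by rw [← h1]
      rw [h2, map_sum]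
      refine Finset.sum_congr rfl fun i _ => ?_
      rw [map_smul, smul_eq_mul, mul_comm]
    · simp
  simp_rw [hpt]
  rw [integral_finsetSum]
  · apply Finset.sum_eq_zero
    intro i _
    exact ibp (hF i) (hFc i) (b i)
  · intro i _
    apply Continuous.integrable_of_hasCompactSupport
    · exact ((hF i).continuous_fderiv (by norm_num)).clm_apply continuous_const
    · exact (hFc i).fderiv_apply (𝕜 := ℝ) (b i)



omit [FiniteDimensional ℝ E] [MeasurableSpace E] [BorelSpace E] in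
/-- the pointwise inequality -/
theorem pointwise (b : OrthonormalBasis (Fin (Module.finrank ℝ E)) ℝ E) {V : E → ℝ} {t C : ℝ}
    (hV : Pot V t C) {β : ℝ} {m : ℕ} (hβ : 0 < β) (hmin : ∀ x : E, 0 ≤ fderiv ℝ V x x)
    (hm : Module.finrank ℝ E ≤ m) (hm1 : 1 ≤ m) {u : E → ℝ} (hu : Tst u) (x : E) :
    fderiv ℝ (gg b V β (m / β) u) x x + (Module.finrank ℝ E : ℝ) * gg b V β (m / β) u x ≤
      ((2 / β) * (∑ i, ‖fderiv ℝ (D (b i) u) x‖ ^ 2) - (β / 2) * (∑ i, (D (b i) u x) ^ 2)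
        + (8 * m / β) * (qq β (m / β) x * (∑ i, (D (b i) u x) ^ 2))) * Real.exp (-psi V β (m / β) x) := by
  have hm0 : (1:ℝ) ≤ m := by exact_mod_cast hm1
  have hR : (0:ℝ) < m / β := by positivity
  rw [gg_fderiv b hV hR hu]
  unfold gg
  set G : ℝ := ∑ i, (D (b i) u x) ^ 2 with hG
  set H : ℝ := ∑ i, ‖fderiv ℝ (D (b i) u) x‖ ^ 2 with hH
  set p : ℝ := phi (m / β) x with hp
  set w : ℝ := Real.exp (-psi V β (m / β) x) with hw
  have hw0 : 0 < w := Real.exp_pos _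
  have hp0 : 0 < p := phi_pos hR x
  have hp2 : p ^ 2 = (m / β) ^ 2 + ‖x‖ ^ 2 := phi_sq hR x
  have hRp : m / β ≤ p := R_le_phi hR x
  have hG0 : 0 ≤ G := Finset.sum_nonneg fun i _ => sq_nonneg _
  -- the first order term
  have h1 : (∑ i, 2 * D (b i) u x * fderiv ℝ (D (b i) u) x x) * p⁻¹ ≤ (β / 2) * G + (2 / β) * H := by
    rw [Finset.sum_mul, hG, hH, Finset.mul_sum, Finset.mul_sum, ← Finset.sum_add_distrib]
    refine Finset.sum_le_sum fun i _ => ?_
    set a := D (b i) u x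
    set c := ‖fderiv ℝ (D (b i) u) x‖ with hc
    have h2 : |fderiv ℝ (D (b i) u) x x * p⁻¹| ≤ c := by
      rw [abs_mul, abs_inv, abs_of_pos hp0, ← div_eq_mul_inv, div_le_iff₀ hp0]
      have h3 := (fderiv ℝ (D (b i) u) x).le_opNorm x
      rw [Real.norm_eq_abs] at h3
      exact h3.trans (mul_le_mul_of_nonneg_left (norm_le_phi hR x) (norm_nonneg _))
    have h4 : 2 * a * fderiv ℝ (D (b i) u) x x * p⁻¹ ≤ 2 * |a| * c := by
      have h5 : 2 * a * fderiv ℝ (D (b i) u) x x * p⁻¹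
        = 2 * (a * (fderiv ℝ (D (b i) u) x x * p⁻¹)) := by ring
      rw [h5]
      have h6 := le_abs_self (a * (fderiv ℝ (D (b i) u) x x * p⁻¹))
      rw [abs_mul] at h6
      have h7 := mul_le_mul_of_nonneg_left h2 (abs_nonneg a)
      linarith
    refine h4.trans ?_
    have h8 : 0 ≤ (β * |a| - 2 * c) ^ 2 / (2 * β) := by positivity
    have h9 : (β * |a| - 2 * c) ^ 2 / (2 * β) = β / 2 * a ^ 2 - 2 * |a| * c + 2 / β * c ^ 2 := by
      rw [← sq_abs a]
      field_simp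
      ring
    linarith
  -- the pointwise inequality for the coefficients
  have hx2 : ‖x‖ ^ 2 = p ^ 2 - (m / β) ^ 2 := by linarith
  have hd : (Module.finrank ℝ E : ℝ) ≤ m := by exact_mod_cast hm
  have hd0 : (0:ℝ) ≤ (Module.finrank ℝ E : ℝ) := Nat.cast_nonneg _
  set s : ℝ := (m / β) * p⁻¹ with hs
  have hs0 : 0 < s := by positivity
  have hs1 : s ≤ 1 := by
    rw [hs, ← div_eq_mul_inv, div_le_one hp0]; exact hRp
  have hmp : (m : ℝ) * p⁻¹ = β * s := by
    rw [hs]; field_simp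
  have hxp : p⁻¹ ^ 2 * ‖x‖ ^ 2 = 1 - s ^ 2 := by
    rw [hx2, hs]; field_simp
  have hq : (8 * m / β) * (qq β (m / β) x * G) = 16 * β * s ^ 3 * G := by
    unfold qq
    rw [← hp, hs]; field_simp; ring
  rw [hq]
  have hip : 0 < p⁻¹ := by positivity
  have e1 : G * p⁻¹ ^ 3 * ‖x‖ ^ 2 = G * p⁻¹ * (1 - s ^ 2) := by
    rw [← hxp]; ring
  have e2 : G * p⁻¹ * (fderiv ℝ V x x + 2 * β * (p⁻¹ * ‖x‖ ^ 2))
      = G * p⁻¹ * fderiv ℝ V x x + 2 * β * G * (1 - s ^ 2) := by
    rw [← hxp]; ring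
  rw [e1, e2]
  have f1 : 0 ≤ G * p⁻¹ * (1 - s ^ 2) := by
    have : 0 ≤ 1 - s ^ 2 := by nlinarith
    positivity
  have f2 : 0 ≤ G * p⁻¹ * fderiv ℝ V x x := by
    have := hmin x
    positivity
  have f3 : (Module.finrank ℝ E : ℝ) * (G * p⁻¹) ≤ β * s * G := by
    have h := mul_le_mul_of_nonneg_right hd (mul_nonneg hG0 hip.le)
    have e : (m:ℝ) * (G * p⁻¹) = β * s * G := by rw [← hmp]; ring
    linarith
  have f4 : 0 ≤ 16 * s ^ 3 - 2 * s ^ 2 - s + 1 := by
    nlinarith [mul_nonneg hs0.le (sq_nonneg (s - 1/4)), sq_nonneg (s - 1/6)]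
  have f5 : 0 ≤ β * G * (16 * s ^ 3 - 2 * s ^ 2 - s + 1) := by positivity
  have key : (∑ i, 2 * D (b i) u x * fderiv ℝ (D (b i) u) x x) * p⁻¹ - G * p⁻¹ * (1 - s ^ 2)
      - (G * p⁻¹ * fderiv ℝ V x x + 2 * β * G * (1 - s ^ 2))
      + (Module.finrank ℝ E : ℝ) * (G * p⁻¹)
      ≤ 2 / β * H - β / 2 * G + 16 * β * s ^ 3 * G := by
    generalize (∑ i, 2 * D (b i) u x * fderiv ℝ (D (b i) u) x x) * p⁻¹ = X1 at *
    generalize G * p⁻¹ * fderiv ℝ V x x = X2 at *
    generalize (Module.finrank ℝ E : ℝ) * (G * p⁻¹) = X3 at *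
    generalize G * p⁻¹ * (1 - s ^ 2) = X4 at *
    generalize 2 / β * H = X5 at *
    have f6 : β * G * (16 * s ^ 3 - 2 * s ^ 2 - s + 1)
      = 16 * β * s ^ 3 * G - 2 * β * G * s ^ 2 - β * s * G + β * G := by ring
    have f7 : 2 * β * G * (1 - s ^ 2) = 2 * β * G - 2 * β * G * s ^ 2 := by ring
    linarith
  have key2 := mul_le_mul_of_nonneg_right key hw0.le
  calc _ = ((∑ i, 2 * D (b i) u x * fderiv ℝ (D (b i) u) x x) * p⁻¹ - G * p⁻¹ * (1 - s ^ 2)
      - (G * p⁻¹ * fderiv ℝ V x x + 2 * β * G * (1 - s ^ 2))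
      + (Module.finrank ℝ E : ℝ) * (G * p⁻¹)) * w := by ring
    _ ≤ _ := key2


/-- coercivity -/
theorem coer (b : OrthonormalBasis (Fin (Module.finrank ℝ E)) ℝ E) {V : E → ℝ} {t C : ℝ}
    (hV : Pot V t C) {β : ℝ} {m : ℕ} (hβ : 0 < β) (hmin : ∀ x : E, 0 ≤ fderiv ℝ V x x)
    (hm : Module.finrank ℝ E ≤ m) (hm1 : 1 ≤ m) {u : E → ℝ} (hu : Tst u) :
    β ^ 2 / (20 * m) * ∫ x, ‖fderiv ℝ u x‖ ^ 2 ∂(mu (psi V β (m / β))) ≤
      ∫ x, (LO b (psi V β (m / β)) u x) ^ 2 ∂(mu (psi V β (m / β))) := by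
  have hm0 : (1:ℝ) ≤ m := by exact_mod_cast hm1
  have hR : (0:ℝ) < m / β := by positivity
  have hP := psi_pot hV hR hβ
  have hPc : Continuous (psi V β (m / β)) := hP.smooth.continuous
  have hboch := bochner b hP.smooth (qq_cont hR β) (fun x v => qq_hess hV hR hβ x v)
    (by exact_mod_cast contDiff_infty.1 hu.1 3) hu.2
  simp only [norm_fderiv_sq b u] at hboch ⊢
  set J := ∫ x, (LO b (psi V β (m / β)) u x) ^ 2 ∂(mu (psi V β (m / β))) with hJ
  rw [integral_mu hPc, integral_mu hPc] at hboch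
  rw [integral_mu hPc]
  -- integrability
  have hDc : ∀ i, Continuous (D (b i) u) := fun i => (D_smooth hu.1 (b i) (n := 0)).continuous
  have hwc : Continuous (fun x => Real.exp (-psi V β (m / β) x)) := Real.continuous_exp.comp hPc.neg
  have hGc : Continuous (fun x => ∑ i, (D (b i) u x) ^ 2) :=
    continuous_finsetSum _ fun i _ => (hDc i).pow 2
  have hGs : HasCompactSupport (fun x => ∑ i, (D (b i) u x) ^ 2) := by
    apply HasCompactSupport.intro hu.2
    intro x hx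
    apply Finset.sum_eq_zero
    intro i _
    have h : D (b i) u x = 0 := by
      unfold D
      rw [image_eq_zero_of_notMem_tsupport (f := fderiv ℝ u)
        (fun h => hx (tsupport_fderiv_subset ℝ h))]
      rfl
    rw [h]; norm_num
  have iG : Integrable (fun x => (∑ i, (D (b i) u x) ^ 2) * Real.exp (-psi V β (m / β) x)) :=
    (hGc.mul hwc).integrable_of_hasCompactSupport hGs.mul_right
  have iQ : Integrable (fun x => (qq β (m / β) x * (∑ i, (D (b i) u x) ^ 2))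
      * Real.exp (-psi V β (m / β) x)) :=
    (((qq_cont hR β).mul hGc).mul hwc).integrable_of_hasCompactSupport hGs.mul_left.mul_right
  have hHc : Continuous (fun x => ∑ i, ‖fderiv ℝ (D (b i) u) x‖ ^ 2) :=
    continuous_finsetSum _ fun i _ => (((D_smooth hu.1 (b i) (n := 1)).continuous_fderiv
      (by norm_num)).norm).pow 2
  have hHs : HasCompactSupport (fun x => ∑ i, ‖fderiv ℝ (D (b i) u) x‖ ^ 2) := by
    apply HasCompactSupport.intro hu.2
    intro x hx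
    apply Finset.sum_eq_zero
    intro i _
    have h : fderiv ℝ (D (b i) u) x = 0 := by
      apply image_eq_zero_of_notMem_tsupport
      intro h
      exact hx (tsupport_fderiv_apply_subset ℝ (b i) (tsupport_fderiv_subset ℝ h))
    rw [h]; norm_num
  have iH : Integrable (fun x => (∑ i, ‖fderiv ℝ (D (b i) u) x‖ ^ 2)
      * Real.exp (-psi V β (m / β) x)) :=
    (hHc.mul hwc).integrable_of_hasCompactSupport hHs.mul_right
  have hgg1 : ContDiff ℝ 1 (gg b V β (m / β) u) := by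
    unfold gg
    apply ContDiff.mul
    · exact ContDiff.sum fun i _ => (D_smooth hu.1 (b i) (n := 1)).pow 2
    · apply ContDiff.mul
      · exact (phi_smooth (n := 1) hR).inv fun x => (phi_pos hR x).ne'
      · exact (hP.smooth.of_le (by norm_num)).neg.exp
  have hggs : HasCompactSupport (gg b V β (m / β) u) := by
    unfold gg
    exact hGs.mul_right
  have hE := euler_ibp hgg1 hggs
  have iE : Integrable (fun x => fderiv ℝ (gg b V β (m / β) u) x x
      + (Module.finrank ℝ E : ℝ) * gg b V β (m / β) u x) := by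
    apply Continuous.integrable_of_hasCompactSupport
    · exact ((hgg1.continuous_fderiv (by norm_num)).clm_apply continuous_id).add
        (continuous_const.mul hgg1.continuous)
    · apply HasCompactSupport.intro hggs
      intro x hx
      rw [image_eq_zero_of_notMem_tsupport hx,
        image_eq_zero_of_notMem_tsupport (f := fderiv ℝ (gg b V β (m / β) u))
        (fun h => hx (tsupport_fderiv_subset ℝ h))]
      simp
  have hmono := integral_mono iE (((iH.const_mul (2 / β)).sub (iG.const_mul (β / 2))).add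
    (iQ.const_mul (8 * m / β))) (fun x => by
      have := pointwise b hV hβ hmin hm hm1 hu x
      simp only [Pi.add_apply, Pi.sub_apply]
      calc _ ≤ _ := this
        _ = _ := by ring)
  rw [hE, integral_add' ((iH.const_mul (2 / β)).sub (iG.const_mul (β / 2))) (iQ.const_mul _),
    integral_sub' (iH.const_mul (2 / β)) (iG.const_mul (β / 2)), integral_const_mul,
    integral_const_mul, integral_const_mul] at hmono
  set I := ∫ x, (∑ i, (D (b i) u x) ^ 2) * Real.exp (-psi V β (m / β) x) with hI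
  set Hh := ∫ x, (∑ i, ‖fderiv ℝ (D (b i) u) x‖ ^ 2) * Real.exp (-psi V β (m / β) x) with hH
  set Q := ∫ x, (qq β (m / β) x * (∑ i, (D (b i) u x) ^ 2)) * Real.exp (-psi V β (m / β) x) with hQ
  have hI0 : 0 ≤ I := integral_nonneg fun x => by
    have := Real.exp_pos (-psi V β (m / β) x)
    have h2 : 0 ≤ ∑ i, (D (b i) u x) ^ 2 := Finset.sum_nonneg fun i _ => sq_nonneg _
    positivity
  have hH0 : 0 ≤ Hh := integral_nonneg fun x => by
    have := Real.exp_pos (-psi V β (m / β) x)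
    have h2 : 0 ≤ ∑ i, ‖fderiv ℝ (D (b i) u) x‖ ^ 2 := Finset.sum_nonneg fun i _ => sq_nonneg _
    positivity
  -- `(β/2) I ≤ (2/β) H + (8m/β) Q ≤ (8m/β) J`
  have h1 : β / 2 * I ≤ 8 * m / β * J := by
    have h2 : 2 / β * Hh ≤ 8 * m / β * Hh := by
      apply mul_le_mul_of_nonneg_right _ hH0
      apply div_le_div_of_nonneg_right _ hβ.le
      linarith
    have h3 : 8 * m / β * (Hh + Q) ≤ 8 * m / β * J :=
      mul_le_mul_of_nonneg_left hboch (by positivity)
    have h4 : 8 * m / β * (Hh + Q) = 8 * m / β * Hh + 8 * m / β * Q := by ring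
    linarith
  have h5 : β ^ 2 / (16 * m) * I ≤ J := by
    have h6 := mul_le_mul_of_nonneg_left h1 (show (0:ℝ) ≤ β / (8 * m) by positivity)
    have h7 : β / (8 * m) * (β / 2 * I) = β ^ 2 / (16 * m) * I := by ring
    have h8 : β / (8 * m) * (8 * m / β * J) = J := by field_simp
    linarith
  refine le_trans (mul_le_mul_of_nonneg_right ?_ hI0) h5
  apply div_le_div_of_nonneg_left (by positivity) (by positivity)
  nlinarith

end G1

variable [FiniteDimensional ℝ E] [MeasurableSpace E] [BorelSpace E]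

/-- Module G1; `hgpc` is the statement `gpc_of_coer` of module C. -/
theorem fibre_pc_of
    (hgpc : ∀ (b : OrthonormalBasis (Fin (Module.finrank ℝ E)) ℝ E) {U : E → ℝ} {t C k : ℝ},
      Pot U t C → 0 < k → (∀ u : E → ℝ, Tst u →
      k * ∫ x, ‖fderiv ℝ u x‖ ^ 2 ∂(mu U) ≤ ∫ x, (LO b U u x) ^ 2 ∂(mu U)) →
      GPC (mu U) (1 / k))
    {V : E → ℝ} {t C β : ℝ} {m : ℕ} (hV : Pot V t C) (hβ : 0 < β)
    (hmin : ∀ x : E, 0 ≤ fderiv ℝ V x x) (hm : Module.finrank ℝ E ≤ m) (hm1 : 1 ≤ m) :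
    GPC (mu (fun x => V x + 2 * β * Real.sqrt ((m / β) ^ 2 + ‖x‖ ^ 2))) (20 * m / β ^ 2) := by
  have hm0 : (1:ℝ) ≤ m := by exact_mod_cast hm1
  have hR : (0:ℝ) < m / β := by positivity
  have h := hgpc (stdOrthonormalBasis ℝ E) (G1.psi_pot hV hR hβ)
    (k := β ^ 2 / (20 * m)) (by positivity)
    (fun u hu => G1.coer (stdOrthonormalBasis ℝ E) hV hβ hmin hm hm1 hu)
  have e : 1 / (β ^ 2 / (20 * m)) = 20 * m / β ^ 2 := by field_simp
  rw [e] at h
  exact h

end Pool.Agent.H84.Sym
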